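import Pool.Agent.Work.MP_46935e_lc.GW.All5

/-!
# The zero-one law for complete disjoint coNP pairs in generic worlds

* `HasPair O`: relative to the oracle `O` there is a complete disjoint coNP pair; `HasTFNP O`: relative to `O` the
  class TFNP has a complete problem.
* `HasTFNPAll C`: black-box TFNP over the world `C` has a complete problem.  Its problems are given by one
  polynomial-time oracle procedure with access to `join G C` and are total for ALL oracles `G`; reductions have to be
  correct for ALL `G`.  `HasPairAll C`: the same for disjoint coNP pairs.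
* `residual (List Bool → Bool)`: comeagre sets of oracles in the product topology (by Baire's theorem they are dense, in
  particular not empty).  `nul`: the empty oracle.
* `IsCompleteCoNPPair` is the frozen notion: the last part is about the question itself.
-/

set_option autoImplicit false

namespace Pool.Agent.Results.MP_46935e_lc.GenericWorlds

open Pool.Agent.RO Pool.Agent.S1 Pool.Agent.GW N68a2faeb N08b01508

theorem result :
    (∀ C : List Bool → Bool,
      (HasPairAll C ↔ HasTFNPAll C) ∧
      (HasTFNPAll C → HasTFNP C ∧ ∀ᶠ G in residual (List Bool → Bool), HasTFNP (join G C) ∧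
        ∃ A B : DecisionProblem, IsDisjointCoNPPairRel (join G C) A B ∧
          (∀ A' B' : DecisionProblem, IsDisjointCoNPPairRel (join G C) A' B' →
            PairReducibleRel (join G C) A' B' A B) ∧
          ∀ S : DecisionProblem, IsPolyTimeRel (join G C) S → ¬ Separates S A B) ∧
      (¬ HasTFNPAll C → ∀ᶠ G in residual (List Bool → Bool),
        ¬ HasTFNP (join G C) ∧ ¬ HasPair (join G C))) ∧
    (∃ C : List Bool → Bool, HasTFNPAll C) ∧
    (∃ C : List Bool → Bool, HasPair C ∧ ¬ HasTFNPAll C) ∧
    ((¬ ∃ A B : DecisionProblem, IsCompleteCoNPPair A B) →
      ¬ HasTFNPAll nul ∧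
      ∀ᶠ G in residual (List Bool → Bool), ¬ HasTFNP G ∧ ¬ HasPair G) :=
  prf_All5

end Pool.Agent.Results.MP_46935e_lc.GenericWorlds
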