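import Pool.Agent.Work.MP_46935e_lc.LD.Main1

/-!
# A low degree (algebrization) barrier for complete disjoint coNP pairs

Let `p` be a prime and `T` an operator on oracles such that the answer of `T A` to a query `q` is a
polynomial over the field with `p` elements of degree at most `poly |q|` in the bits of `A` at the
strings of length at most `|q|`. Then there is an oracle `A` such that relative to `A` together with
`T A` one has P = NP and there is a complete disjoint coNP pair, and there is another oracle `A` such
that relative to `A` together with `T A` no disjoint coNP pair is complete, not even for Turing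
reductions in subexponential time `τ`. Affine oracles (any Boolean function of a value of the affine
extension of `A` over a field of characteristic `p`) are of this kind.
-/

set_option autoImplicit false

namespace Pool.Agent.Results.MP_46935e_lc.LowDegreeOracles

open Pool.Agent.RO Pool.Agent.LD Filter N68a2faeb

theorem result (p : ℕ) [Fact p.Prime] :
    (∀ T : (List Bool → Bool) → List Bool → Bool, IsLowDegree p T →
      (∃ A : List Bool → Bool,
        (∀ L ∈ NPRel (join A (T A)), IsPolyTimeRel (join A (T A)) L) ∧
        ∃ C D : DecisionProblem, IsDisjointCoNPPairRel (join A (T A)) C D ∧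
          ∀ C' D' : DecisionProblem, IsDisjointCoNPPairRel (join A (T A)) C' D' →
            PairReducibleRel (join A (T A)) C' D' C D) ∧
      ∀ τ : ℕ → ℕ, (∀ k : ℕ, ∀ᶠ n in atTop, τ n ^ k ≤ 2 ^ n) →
        ∃ A : List Bool → Bool,
          ∀ C D : DecisionProblem, IsDisjointCoNPPairRel (join A (T A)) C D →
            ∃ C' D' : DecisionProblem, IsDisjointCoNPPairRel (join A (T A)) C' D' ∧
              ¬ PairReducibleRel (join A (T A)) C' D' C D ∧
              ¬ PairTuringReducibleRel (join A (T A)) τ C' D' C D) ∧
    (∀ (k n : List Bool → ℕ) (x : (q : List Bool) → Fin (n q) → GaloisField p (k q))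
        (π : (q : List Bool) → GaloisField p (k q) → Bool) (c : Polynomial ℕ),
        (∀ q, 0 < k q ∧ k q ≤ c.eval q.length) → (∀ q, n q ≤ q.length) →
        IsLowDegree p (affOracle p k n x π)) := by
  refine ⟨fun T hT => ⟨?_, fun τ hτ => main_neg hT hτ⟩,
    fun k n x π c hk hn => aff_low k n x π c hk hn⟩
  obtain ⟨A, hA⟩ := main_pos hT.isLocal
  exact ⟨A, hA, complete_of_PeqNP hA⟩

end Pool.Agent.Results.MP_46935e_lc.LowDegreeOracles
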