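import Pool.Agent.Work.MP_46935e_lc.S1.Fin

/-!
# An oracle with complete disjoint coNP pairs but without complete TFNP problems

There is an oracle `O` such that every disjoint coNP pair relative to `O` is separated by a set in
P relative to `O`, so that complete disjoint coNP pairs exist relative to `O`, but for every total
NP search problem `V` relative to `O` there is a total NP search problem `V'` relative to `O` which
is neither many-one nor Turing reducible to `V` in polynomial time relative to `O`.
-/

set_option autoImplicit false

namespace Pool.Agent.Results.MP_46935e_lc.OracleTFNP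

open Pool.Agent.RO Pool.Agent.S1 N68a2faeb

theorem result : ∃ O : List Bool → Bool,
    (∀ A B : DecisionProblem, IsDisjointCoNPPairRel O A B →
      ∃ S : DecisionProblem, IsPolyTimeRel O S ∧ Separates S A B) ∧
    (∃ A B : DecisionProblem, IsDisjointCoNPPairRel O A B ∧
      ∀ A' B' : DecisionProblem, IsDisjointCoNPPairRel O A' B' → PairReducibleRel O A' B' A B) ∧
    ∀ V : List Bool × List Bool → Bool, IsTFNPRel O V →
      ∃ V' : List Bool × List Bool → Bool, IsTFNPRel O V' ∧
        ¬ SearchReducibleRel O V' V ∧ ¬ SearchTuringReducibleRel O V' V := by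
  obtain ⟨O, h1, h2⟩ := main
  refine ⟨O, h1, ⟨oneL true, oneL false, pair0 O, fun A' B' h => ?_⟩, h2⟩
  obtain ⟨S, hS, hA, hB⟩ := h1 A' B' h
  refine ⟨fun x => [S x], singleton_poly hS, fun x hx => ?_, fun x hx => ?_⟩
  · simp only [oneL, decide_eq_true_eq]
    rw [hA x hx]
  · simp only [oneL, decide_eq_true_eq]
    rw [hB x hx]

end Pool.Agent.Results.MP_46935e_lc.OracleTFNP
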