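import Pool.Agent.Work.MP_46935e_lc.RO.NMain

/-!
# Relative to a random oracle there is no complete disjoint coNP pair

Let `T` be subexponential (`T n ^ k ≤ 2 ^ n` for every `k` and all large `n`) and let `C` be any
oracle. For almost every oracle `R` the following holds for `O = R` and for `O = join R C`:
for every disjoint coNP pair `(A, B)` relative to `O` there is a disjoint coNP pair `(A', B')`
relative to `O` which is not reducible to `(A, B)` in polynomial time relative to `O`, and not even
nondeterministically Turing reducible to `(A, B)` relative to `O` in time `T n + poly n`.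
-/

set_option autoImplicit false

namespace Pool.Agent.Results.MP_46935e_lc.RandomOracle

open Pool.Agent.RO MeasureTheory Filter N68a2faeb

theorem result (C : List Bool → Bool) (T : ℕ → ℕ)
    (hT : ∀ k : ℕ, ∀ᶠ n in atTop, T n ^ k ≤ 2 ^ n) :
    ∀ᵐ R ∂randomOracle, ∀ O : List Bool → Bool, O = R ∨ O = join R C →
      ∀ A B : DecisionProblem, IsDisjointCoNPPairRel O A B →
        ∃ A' B' : DecisionProblem, IsDisjointCoNPPairRel O A' B' ∧
          ¬ PairReducibleRel O A' B' A B ∧ ¬ PairNTReducibleRel O T A' B' A B := by
  filter_upwards [main_local locId exists_SS_id T hT,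
    main_local (locJoin C) (exists_SS_join C) T hT] with R h1 h2 O hO A B hAB
  rcases hO with rfl | rfl
  · obtain ⟨A', B', h3, h4⟩ := h1 A B hAB
    exact ⟨A', B', h3, fun h => h4 (nt_of_turing (turing_of_manyOne T h)), h4⟩
  · obtain ⟨A', B', h3, h4⟩ := h2 A B hAB
    exact ⟨A', B', h3, fun h => h4 (nt_of_turing (turing_of_manyOne T h)), h4⟩

end Pool.Agent.Results.MP_46935e_lc.RandomOracle
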